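import Pool.Agent.Q109.RC.Stm

/-! Project RC, job COL. -/

set_option autoImplicit false

namespace Pool.Agent.Q222.RC

open Finset Q109.RC

/-- the number of pairs with a given sum between them -/
def NN (A : Finset ℕ) (d : ℕ) : ℕ := ((A ×ˢ A).filter
      (fun q => q.1 < q.2 ∧ ∑ w ∈ A with (q.1 ≤ w ∧ w < q.2), w = d)).card

theorem count_near {n h y : ℕ} (hn : 0 < n) {Y : Finset ℕ}
    (hY : ∀ y ∈ Y, ∀ y' ∈ Y, y < y' → n ≤ 2 * (y' - y)) (hy : y ∈ Y) :
    2 * (Y.filter (fun y' => y < y' ∧ 4 * (y' - y) ≤ h * n)).card ≤ h := by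
  have h1 : (Y.filter (fun y' => y < y' ∧ 4 * (y' - y) ≤ h * n)).card ≤ (Icc 1 (h / 2)).card := by
    apply Finset.card_le_card_of_injOn (fun y' => 2 * (y' - y) / n)
    · intro y' hy'
      obtain ⟨hy', h2, h3⟩ := Finset.mem_filter.1 hy'
      show 2 * (y' - y) / n ∈ (Icc 1 (h / 2) : Finset ℕ)
      rw [Finset.mem_Icc]
      constructor
      · rw [Nat.one_le_div_iff hn]
        exact hY y hy y' hy' h2
      · rw [Nat.le_div_iff_mul_le (by norm_num)]
        have h4 : 2 * (y' - y) / n * n ≤ 2 * (y' - y) := Nat.div_mul_le_self _ _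
        have h5 : 2 * (y' - y) / n * 2 * n ≤ h * n := by
          calc 2 * (y' - y) / n * 2 * n = 2 * (2 * (y' - y) / n * n) := by ring
            _ ≤ 2 * (2 * (y' - y)) := by omega
            _ = 4 * (y' - y) := by ring
            _ ≤ h * n := h3
        exact Nat.le_of_mul_le_mul_right h5 hn
    · have key : ∀ a ∈ Y.filter (fun y' => y < y' ∧ 4 * (y' - y) ≤ h * n),
          ∀ b ∈ Y.filter (fun y' => y < y' ∧ 4 * (y' - y) ≤ h * n), a < b →
            2 * (a - y) / n < 2 * (b - y) / n := by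
        intro a ha b hb hab
        obtain ⟨ha, ha2, -⟩ := Finset.mem_filter.1 ha
        obtain ⟨hb, hb2, -⟩ := Finset.mem_filter.1 hb
        have h2 := hY a ha b hb hab
        have h3 : 2 * (a - y) + n ≤ 2 * (b - y) := by omega
        have h4 : (2 * (a - y) + n) / n ≤ 2 * (b - y) / n := Nat.div_le_div_right h3
        rw [Nat.add_div_right _ hn] at h4
        omega
      intro a ha b hb hab
      rcases lt_trichotomy a b with h2 | h2 | h2
      · have := key a ha b hb h2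
        simp only at hab
        omega
      · exact h2
      · have := key b hb a ha h2
        simp only at hab
        omega
  rw [Nat.card_Icc] at h1
  omega

theorem coll_le {s h n : ℕ} {Y : Finset ℕ} (hs : 1 ≤ s) (hn : 4 * (s + h) ≤ n) {A : Finset ℕ}
    (hA : A ⊆ Ico s (s + 2 * h)) :
    coll A (A ∩ Ico s (s + h)) Y ≤ ∑ y ∈ Y, ∑ y' ∈ Y.filter (fun y' => y < y' ∧ 4 * (y' - y) ≤ h * n),
      NN (A ∩ Ico s (s + h)) (y' - y) := by
  classical
  set A' := A ∩ Ico s (s + h) with hA'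
  set C : Finset ((ℕ × ℕ) × (ℕ × ℕ)) := ((A' ×ˢ A') ×ˢ (Y ×ˢ Y)).filter
      (fun q => q.1.1 < q.1.2 ∧ up A q.1.1 + q.2.1 = up A q.1.2 + q.2.2) with hC
  have h0 : coll A A' Y = C.card := rfl
  rw [h0, Finset.sum_sigma']
  unfold NN
  rw [← Finset.card_sigma]
  apply Finset.card_le_card_of_injOn
    (fun q => (⟨⟨q.2.1, q.2.2⟩, q.1⟩ : Σ _ : (Σ _ : ℕ, ℕ), ℕ × ℕ))
  · rintro ⟨⟨x, x'⟩, ⟨y, y'⟩⟩ hq
    obtain ⟨hq, hx, he⟩ := Finset.mem_filter.1 hq
    obtain ⟨hq1, hq2⟩ := Finset.mem_product.1 hq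
    obtain ⟨hxA, hxA'⟩ := Finset.mem_product.1 hq1
    obtain ⟨hy, hy'⟩ := Finset.mem_product.1 hq2
    simp only at hx he hxA hxA' hy hy'
    -- the sum between
    have hxI := Finset.mem_Ico.1 (Finset.mem_inter.1 hxA).2
    have hxI' := Finset.mem_Ico.1 (Finset.mem_inter.1 hxA').2
    have e1 : up A x = up A x' + ∑ w ∈ A' with (x ≤ w ∧ w < x'), w := by
      unfold up
      have e2 : (A.filter (fun z => x ≤ z)) = (A.filter (fun z => x' ≤ z)) ∪
          (A'.filter (fun w => x ≤ w ∧ w < x')) := by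
        ext z
        simp only [Finset.mem_filter, Finset.mem_union, hA', Finset.mem_inter, Finset.mem_Ico]
        constructor
        · rintro ⟨h1, h2⟩
          by_cases h3 : x' ≤ z
          · exact Or.inl ⟨h1, h3⟩
          · exact Or.inr ⟨⟨h1, by omega, by omega⟩, h2, by omega⟩
        · rintro (⟨h1, h2⟩ | ⟨⟨h1, -⟩, h2, -⟩)
          · exact ⟨h1, by omega⟩
          · exact ⟨h1, h2⟩
      rw [e2, Finset.sum_union]
      rw [Finset.disjoint_left]
      intro z h1 h2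
      have h3 := (Finset.mem_filter.1 h1).2
      have h4 := (Finset.mem_filter.1 h2).2.2
      omega
    have e3 : y' = y + ∑ w ∈ A' with (x ≤ w ∧ w < x'), w := by omega
    have e4 : 1 ≤ ∑ w ∈ A' with (x ≤ w ∧ w < x'), w := by
      have : x ≤ ∑ w ∈ A' with (x ≤ w ∧ w < x'), w :=
        Finset.single_le_sum (f := fun w => w) (fun _ _ => Nat.zero_le _)
          (Finset.mem_filter.2 ⟨hxA, le_rfl, hx⟩)
      omega
    have e5 : ∑ w ∈ A' with (x ≤ w ∧ w < x'), w ≤ h * (s + h) := by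
      have h1 : (A'.filter (fun w => x ≤ w ∧ w < x')).card ≤ h := by
        have : A'.filter (fun w => x ≤ w ∧ w < x') ⊆ Ico s (s + h) :=
          (Finset.filter_subset _ _).trans Finset.inter_subset_right
        have h2 := Finset.card_le_card this
        rw [Nat.card_Ico] at h2
        omega
      have h2 : ∑ w ∈ A' with (x ≤ w ∧ w < x'), w ≤
          (A'.filter (fun w => x ≤ w ∧ w < x')).card • (s + h) := by
        apply Finset.sum_le_card_nsmul
        intro w hw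
        have := Finset.mem_Ico.1 (Finset.mem_inter.1 (Finset.mem_filter.1 hw).1).2
        omega
      rw [smul_eq_mul] at h2
      exact h2.trans (Nat.mul_le_mul_right _ h1)
    show (⟨⟨y, y'⟩, (x, x')⟩ : Σ _ : (Σ _ : ℕ, ℕ), ℕ × ℕ) ∈ _
    simp only [Finset.coe_sigma, Set.mem_sigma_iff, Finset.mem_coe, Finset.mem_sigma,
      Finset.mem_filter, Finset.mem_product]
    refine ⟨⟨hy, hy', by omega, ?_⟩, ⟨hxA, hxA'⟩, hx, by omega⟩
    have e6 : y' - y = ∑ w ∈ A' with (x ≤ w ∧ w < x'), w := by omega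
    rw [e6]
    calc 4 * ∑ w ∈ A' with (x ≤ w ∧ w < x'), w ≤ 4 * (h * (s + h)) := by omega
      _ = h * (4 * (s + h)) := by ring
      _ ≤ h * n := Nat.mul_le_mul_left _ hn
  · rintro ⟨⟨x, x'⟩, ⟨y, y'⟩⟩ _ ⟨⟨u, u'⟩, ⟨v, v'⟩⟩ _ he
    simp only [Sigma.mk.injEq, heq_eq_eq] at he
    obtain ⟨⟨rfl, rfl⟩, h2⟩ := he
    rw [h2]

theorem col : S_Col := by
  intro p hp0 hp1 s h n Y C hn hs hsn hY hC
  have hC0 : 0 ≤ C := le_trans (Ex_nonneg hp0.le hp1.le (fun F _ => by positivity)) (hC 0)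
  have hsub : Ico s (s + h) ⊆ Ico s (s + 2 * h) := Finset.Ico_subset_Ico le_rfl (by omega)
  have h1 : Ex p (Ico s (s + 2 * h)) (fun A => (coll A (A ∩ Ico s (s + h)) Y : ℝ)) ≤
      Ex p (Ico s (s + 2 * h)) (fun A => ∑ y ∈ Y,
        ∑ y' ∈ Y.filter (fun y' => y < y' ∧ 4 * (y' - y) ≤ h * n),
          (NN (A ∩ Ico s (s + h)) (y' - y) : ℝ)) := by
    apply Ex_mono hp0.le hp1.le
    intro F hF
    exact_mod_cast coll_le (Y := Y) hs hsn hF
  refine h1.trans ?_
  rw [Ex_sum]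
  have h2 : ∀ y ∈ Y, Ex p (Ico s (s + 2 * h)) (fun A =>
        ∑ y' ∈ Y.filter (fun y' => y < y' ∧ 4 * (y' - y) ≤ h * n),
          (NN (A ∩ Ico s (s + h)) (y' - y) : ℝ)) ≤ C * (h / 2) := by
    intro y hy
    rw [Ex_sum]
    have h3 : ∀ y' ∈ Y.filter (fun y' => y < y' ∧ 4 * (y' - y) ≤ h * n),
        Ex p (Ico s (s + 2 * h)) (fun A => (NN (A ∩ Ico s (s + h)) (y' - y) : ℝ)) ≤ C := by
      intro y' _
      rw [Ex_restrict p hsub (fun A => (NN A (y' - y) : ℝ))]
      exact hC (y' - y)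
    refine (Finset.sum_le_sum h3).trans ?_
    rw [Finset.sum_const, nsmul_eq_mul, mul_comm]
    apply mul_le_mul_of_nonneg_left _ hC0
    have h4 := count_near (h := h) hn hY hy
    have h5 : (2 * ((Y.filter (fun y' => y < y' ∧ 4 * (y' - y) ≤ h * n)).card : ℝ)) ≤ h := by
      exact_mod_cast h4
    linarith
  refine (Finset.sum_le_sum h2).trans ?_
  rw [Finset.sum_const, nsmul_eq_mul]
  apply le_of_eq
  ring

end Pool.Agent.Q222.RC
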