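import Pool.Agent.Q109.RC.Stm

/-! Project RC, job CS. -/

set_option autoImplicit false

namespace Pool.Agent.Q222.RC

open Finset Q109.RC

theorem cs : S_CS := by
  intro A A' Y V hA
  classical
  set φ : ℕ × ℕ → ℕ := fun q => up A q.1 + q.2 with hφ
  set G : Finset (ℕ × ℕ) := (A' ×ˢ Y).filter (fun q => φ q ∉ V) with hG
  set D : Finset ℕ := G.image φ with hD
  -- the number of elements of `G`
  have h1 : (G.card : ℝ) = (A'.card : ℝ) * Y.card - bad A A' Y V := by
    have h2 := Finset.card_filter_add_card_filter_not (s := A' ×ˢ Y) (fun q => φ q ∈ V)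
    rw [Finset.card_product] at h2
    have h3 : bad A A' Y V = ((A' ×ˢ Y).filter (fun q => φ q ∈ V)).card := rfl
    rw [h3, eq_sub_iff_add_eq, add_comm]
    exact_mod_cast h2
  rw [← h1]
  -- the image
  have h2 : (D.card : ℝ) ≤ ((V ∪ New A Y).card : ℝ) - V.card := by
    have h3 : Disjoint V D := by
      rw [Finset.disjoint_left]
      intro v hv hvD
      obtain ⟨q, hq, rfl⟩ := Finset.mem_image.1 hvD
      exact (Finset.mem_filter.1 hq).2 hv
    have h4 : V ∪ D ⊆ V ∪ New A Y := by
      apply Finset.union_subset_union_right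
      intro v hv
      obtain ⟨q, hq, rfl⟩ := Finset.mem_image.1 hv
      have h5 := Finset.mem_product.1 (Finset.mem_filter.1 hq).1
      exact mem_New.2 ⟨q.1, hA h5.1, q.2, h5.2, rfl⟩
    have h5 := Finset.card_le_card h4
    rw [Finset.card_union_of_disjoint h3] at h5
    have h6 : ((V.card + D.card : ℕ) : ℝ) ≤ ((V ∪ New A Y).card : ℝ) := by exact_mod_cast h5
    push_cast at h6
    linarith
  -- the pairs
  set Q : Finset ((ℕ × ℕ) × (ℕ × ℕ)) := (G ×ˢ G).filter (fun p => φ p.1 = φ p.2) with hQ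
  have h3 : (G.card : ℝ) ^ 2 ≤ D.card * Q.card := by
    have h4 : G.card = ∑ s ∈ D, (G.filter (fun g => φ g = s)).card :=
      Finset.card_eq_sum_card_fiberwise (fun g hg => Finset.mem_image_of_mem φ hg)
    have h5 : Q.card = ∑ s ∈ D, (G.filter (fun g => φ g = s)).card ^ 2 := by
      have h6 : Q.card = ∑ s ∈ D, (Q.filter (fun p => φ p.1 = s)).card := by
        apply Finset.card_eq_sum_card_fiberwise
        intro p hp
        have := Finset.mem_product.1 (Finset.mem_filter.1 hp).1
        exact Finset.mem_image_of_mem φ this.1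
      rw [h6]
      refine Finset.sum_congr rfl fun s _ => ?_
      rw [sq, ← Finset.card_product]
      congr 1
      ext p
      simp only [hQ, Finset.mem_filter, Finset.mem_product]
      constructor
      · rintro ⟨⟨⟨a, b⟩, c⟩, d⟩
        exact ⟨⟨a, d⟩, b, c ▸ d⟩
      · rintro ⟨⟨a, d⟩, b, c⟩
        exact ⟨⟨⟨a, b⟩, d.trans c.symm⟩, d⟩
    have h7 := sq_sum_le_card_mul_sum_sq (s := D)
      (f := fun s => ((G.filter (fun g => φ g = s)).card : ℝ))
    have h8 : (G.card : ℝ) = ∑ s ∈ D, ((G.filter (fun g => φ g = s)).card : ℝ) := by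
      exact_mod_cast h4
    have h9 : (Q.card : ℝ) = ∑ s ∈ D, ((G.filter (fun g => φ g = s)).card : ℝ) ^ 2 := by
      exact_mod_cast h5
    rw [h8, h9]
    exact h7
  have h4 : Q.card ≤ A'.card * Y.card + 2 * coll A A' Y := by
    set C : Finset ((ℕ × ℕ) × (ℕ × ℕ)) := ((A' ×ˢ A') ×ˢ (Y ×ˢ Y)).filter
      (fun q => q.1.1 < q.1.2 ∧ up A q.1.1 + q.2.1 = up A q.1.2 + q.2.2) with hC
    have hsub : Q ⊆ (A' ×ˢ Y).image (fun g => (g, g)) ∪
        (C.image (fun q => ((q.1.1, q.2.1), (q.1.2, q.2.2))) ∪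
          C.image (fun q => ((q.1.2, q.2.2), (q.1.1, q.2.1)))) := by
      rintro ⟨⟨x, y⟩, ⟨x', y'⟩⟩ hp
      obtain ⟨hp, he⟩ := Finset.mem_filter.1 hp
      obtain ⟨hg, hg'⟩ := Finset.mem_product.1 hp
      have a1 := Finset.mem_product.1 (Finset.mem_filter.1 hg).1
      have a2 := Finset.mem_product.1 (Finset.mem_filter.1 hg').1
      simp only at a1 a2
      change up A x + y = up A x' + y' at he
      rw [Finset.mem_union, Finset.mem_union, Finset.mem_image, Finset.mem_image, Finset.mem_image]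
      rcases lt_trichotomy x x' with hx | hx | hx
      · right; left
        refine ⟨((x, x'), (y, y')), ?_, rfl⟩
        rw [hC, Finset.mem_filter, Finset.mem_product, Finset.mem_product, Finset.mem_product]
        exact ⟨⟨⟨a1.1, a2.1⟩, a1.2, a2.2⟩, hx, he⟩
      · left
        subst hx
        have : y = y' := by omega
        subst this
        exact ⟨(x, y), Finset.mem_product.2 a1, rfl⟩
      · right; right
        refine ⟨((x', x), (y', y)), ?_, rfl⟩
        rw [hC, Finset.mem_filter, Finset.mem_product, Finset.mem_product, Finset.mem_product]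
        exact ⟨⟨⟨a2.1, a1.1⟩, a2.2, a1.2⟩, hx, he.symm⟩
    refine (Finset.card_le_card hsub).trans ((Finset.card_union_le _ _).trans ?_)
    have b1 : ((A' ×ˢ Y).image (fun g => (g, g))).card ≤ A'.card * Y.card := by
      rw [← Finset.card_product]
      exact Finset.card_image_le
    have b2 := (Finset.card_union_le (C.image (fun q => ((q.1.1, q.2.1), (q.1.2, q.2.2))))
      (C.image (fun q => ((q.1.2, q.2.2), (q.1.1, q.2.1)))))
    have b3 : (C.image (fun q => ((q.1.1, q.2.1), (q.1.2, q.2.2)))).card ≤ C.card :=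
      Finset.card_image_le
    have b4 : (C.image (fun q => ((q.1.2, q.2.2), (q.1.1, q.2.1)))).card ≤ C.card :=
      Finset.card_image_le
    have b5 : coll A A' Y = C.card := rfl
    omega
  have h5 : (Q.card : ℝ) ≤ (A'.card : ℝ) * Y.card + 2 * coll A A' Y := by exact_mod_cast h4
  calc (G.card : ℝ) ^ 2 ≤ D.card * Q.card := h3
    _ ≤ _ := mul_le_mul h2 h5 (by positivity) (le_trans (by positivity) h2)

end Pool.Agent.Q222.RC
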