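import Pool.Agent.Q23.RC.Stm

/-! Project RC (helper23), job HIL: two lemmas on Hilbert spaces. -/

set_option autoImplicit false

namespace Pool.Agent.Q222.RC

open Pool.Agent.Q23.RC

theorem hil : S_hil := by
  intro H₀ H₁ H₂ _ _ _ _ _ _ _ _ _ A D P hDA hPP hPD hε hinj
  obtain ⟨ε, hε0, hε⟩ := hε
  set V : Submodule ℂ H₁ := (LinearMap.range (A : H₀ →ₗ[ℂ] H₁))ᗮ with hV
  have hVA : ∀ v ∈ V, ∀ z, inner ℂ (A z) v = 0 := fun v hv z =>
    (Submodule.mem_orthogonal _ _).1 hv _ ⟨z, rfl⟩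
  have hD0 : ∀ x ∈ Vᗮ, D x = 0 := by
    intro x hx
    rw [hV, Submodule.orthogonal_orthogonal_eq_closure] at hx
    have h1 : (LinearMap.range (A : H₀ →ₗ[ℂ] H₁)).topologicalClosure ≤
        LinearMap.ker (D : H₁ →ₗ[ℂ] H₂) := by
      apply Submodule.topologicalClosure_minimal
      · rintro _ ⟨z, rfl⟩
        exact hDA z
      · exact D.isClosed_ker
    exact h1 hx
  set DV : V →L[ℂ] H₂ := D.comp V.subtypeL with hDV
  have hanti : AntilipschitzWith (⟨(Real.sqrt ε)⁻¹, by positivity⟩ : NNReal) DV := by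
    apply ContinuousLinearMap.antilipschitz_of_bound
    intro v
    have h1 := hε (v : H₁) (hVA v v.2)
    have h2 : Real.sqrt ε * ‖(v : H₁)‖ ≤ ‖D v‖ := by
      apply le_of_sq_le_sq _ (norm_nonneg _)
      rw [mul_pow, Real.sq_sqrt hε0.le]
      exact h1
    have h3 : 0 < Real.sqrt ε := Real.sqrt_pos.2 hε0
    show ‖(v : H₁)‖ ≤ (Real.sqrt ε)⁻¹ * ‖D v‖
    rw [inv_mul_eq_div, le_div_iff₀ h3]
    linarith [mul_comm (Real.sqrt ε) ‖(v : H₁)‖]
  have hcl : IsClosed (Set.range DV) := hanti.isClosed_range DV.uniformContinuous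
  set R : Submodule ℂ H₂ := LinearMap.range (DV : V →ₗ[ℂ] H₂) with hR
  have hRcl : IsClosed (R : Set H₂) := by
    have : (R : Set H₂) = Set.range DV := by
      ext y
      simp [hR, LinearMap.mem_range]
    rw [this]
    exact hcl
  have hDR : ∀ x, D x ∈ R := by
    intro x
    obtain ⟨y, hy, z, hz, rfl⟩ := V.exists_add_mem_mem_orthogonal x
    rw [map_add, hD0 z hz, add_zero]
    exact ⟨⟨y, hy⟩, rfl⟩
  have hPR : ∀ z, P z ∈ R := by
    intro z
    rw [← hRcl.submodule_topologicalClosure_eq, ← Submodule.orthogonal_orthogonal_eq_closure,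
      Submodule.mem_orthogonal]
    intro w hw
    have h1 : ContinuousLinearMap.adjoint D w = 0 := by
      apply ext_inner_right ℂ
      intro x
      rw [ContinuousLinearMap.adjoint_inner_left, inner_zero_left]
      exact (Submodule.mem_orthogonal' _ _).1 hw _ (hDR x)
    have h2 : ContinuousLinearMap.adjoint P w = 0 := by
      apply hinj
      · apply ext_inner_right ℂ
        intro x
        rw [ContinuousLinearMap.adjoint_inner_left, ContinuousLinearMap.adjoint_inner_left, hPD,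
          ← ContinuousLinearMap.adjoint_inner_left, h1]
      · apply ext_inner_right ℂ
        intro x
        rw [ContinuousLinearMap.adjoint_inner_left, ContinuousLinearMap.adjoint_inner_left,
          ContinuousLinearMap.adjoint_inner_left, hPP]
    rw [← ContinuousLinearMap.adjoint_inner_left, h2, inner_zero_left]
  let f : (H₁ × H₂) →L[ℂ] H₂ := D.comp (ContinuousLinearMap.fst ℂ H₁ H₂) +
    ((ContinuousLinearMap.id ℂ H₂) - P).comp (ContinuousLinearMap.snd ℂ H₁ H₂)
  have hf : ∀ q : H₁ × H₂, f q = D q.1 + (q.2 - P q.2) := fun q => rfl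
  have hsurj : Function.Surjective f := by
    intro z
    obtain ⟨v, hv⟩ := hPR z
    refine ⟨((v : H₁), z), ?_⟩
    rw [hf]
    have : D (v : H₁) = P z := hv
    simp only [this]
    abel
  obtain ⟨C, hC0, hC⟩ := f.exists_preimage_norm_le hsurj
  refine ⟨C, fun z => ?_⟩
  obtain ⟨⟨x, u⟩, h1, h2⟩ := hC z
  have h1' : D x + (u - P u) = z := h1
  have hx : ‖x‖ ≤ C * ‖z‖ := (norm_fst_le (x, u)).trans h2
  have hu : ‖u‖ ≤ C * ‖z‖ := (norm_snd_le (x, u)).trans h2
  have h3 : ‖z‖ ^ 2 ≤ C * ‖z‖ * (‖ContinuousLinearMap.adjoint D z‖ +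
      ‖z - ContinuousLinearMap.adjoint P z‖) := by
    have h4 : (inner ℂ z z : ℂ) = inner ℂ x (ContinuousLinearMap.adjoint D z) +
        inner ℂ u (z - ContinuousLinearMap.adjoint P z) := by
      have : (inner ℂ z z : ℂ) = inner ℂ (D x + (u - P u)) z := by rw [h1']
      rw [this, inner_add_left, inner_sub_left, inner_sub_right,
        ContinuousLinearMap.adjoint_inner_right, ContinuousLinearMap.adjoint_inner_right]
    have h5 : ‖z‖ ^ 2 = ‖(inner ℂ z z : ℂ)‖ := by
      rw [inner_self_eq_norm_sq_to_K]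
      simp
    rw [h5, h4]
    calc ‖(inner ℂ x (ContinuousLinearMap.adjoint D z) +
          inner ℂ u (z - ContinuousLinearMap.adjoint P z) : ℂ)‖
        ≤ ‖(inner ℂ x (ContinuousLinearMap.adjoint D z) : ℂ)‖ +
          ‖(inner ℂ u (z - ContinuousLinearMap.adjoint P z) : ℂ)‖ := norm_add_le _ _
      _ ≤ ‖x‖ * ‖ContinuousLinearMap.adjoint D z‖ +
          ‖u‖ * ‖z - ContinuousLinearMap.adjoint P z‖ :=
        add_le_add (norm_inner_le_norm _ _) (norm_inner_le_norm _ _)
      _ ≤ C * ‖z‖ * ‖ContinuousLinearMap.adjoint D z‖ +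
          C * ‖z‖ * ‖z - ContinuousLinearMap.adjoint P z‖ := by gcongr
      _ = _ := by ring
  rcases eq_or_lt_of_le (norm_nonneg z) with h0 | h0
  · rw [← h0]
    positivity
  · have h6 : ‖z‖ * ‖z‖ ≤ ‖z‖ * (C * (‖ContinuousLinearMap.adjoint D z‖ +
      ‖z - ContinuousLinearMap.adjoint P z‖)) := by
      calc ‖z‖ * ‖z‖ = ‖z‖ ^ 2 := by ring
        _ ≤ _ := h3
        _ = _ := by ring
    exact le_of_mul_le_mul_left h6 h0

end Pool.Agent.Q222.RC
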